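import Pool.Agent.H1.TB.Glue

set_option autoImplicit false

/-! # The strong monodromy conjecture for topological zeta functions of ideals: quadric bundles over
lines in separate variables

Let `f_1, …, f_r` be non-zero polynomials in separate sets of variables, each of them of the form

`∑_k (c_k(t_k) + ∑_j b_{k,j}(t_k) x_{k,j} + ∑_{j,j'} q_{k,j,j'}(t_k) x_{k,j} x_{k,j'}
  + ∑_i e_{k,i}(t_k) ∏_j z_{k,i,j} ^ a_{k,i,j})`                                           (*)

with ARBITRARY polynomials `c_k, b_{k,j}, q_{k,j,j'}, e_{k,i} ∈ ℂ[t]` and exponents `a_{k,i,j} ≥ 1`. For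
instance `f_i` is any polynomial of degree at most two in all but one of its variables (a quadric bundle
over the line, with arbitrary discriminant), or a Thom-Sebastiani sum of such polynomials. Let
`I = (f_1, …, f_r)`.

For every zero `P` of `I` and every pole `s₀` of the local topological zeta function of `I` at `P`, we prove
that `b(s₀) = 0` for the Bernstein-Sato polynomials `b = b_{I,P}` (germ of `I` at `P`) and `b = b_I`
of Budur, Mustata and Saito; so this is Q1 for the germs of these ideals. The global topological zeta function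
of `I` is `c₀ + ∑_t χ_t Z_t` where `Z_t` is the local zeta function at a point `P_t` of the stratum `S_t` of a
suitable finite stratification of the zero set, and `χ_t = χ(S_t)`, `c₀ = χ(ℂ ^ n ∖ V(I))`; the second part
of the theorem is for such sums.

Method (`Pool/Agent/H1/QB`, `Pool/Agent/H1/TB`). At every zero some unit times `f_i` is
`∑_i U_i ∏_k l_k ^ M_{i,k} ∏_{v ∈ V_i} ξ_v ^ a_v + ∑_{k ∈ A} W_k l_k ^ n_k`, where the `l_k`, `ξ_v` are part of
a system of local coordinates, the `U_i`, `W_k` are units, and for each `i` at most one of the `M_{i,k}`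
is nonzero (completion of squares over the discrete valuation ring of the line). The exponents are such that
all the units can be absorbed by a formal change of the coordinates. So the germ of `I` is in the class of
germs of the library (`Pool.Agent.Q57.MD.Tower`), for which the conjecture holds. -/

namespace Pool.Agent.Results.MP_ee8c61_ag.QuadricBundleIdeals

open MvPolynomial
open Pool.Agent.H1.TB (Bundles)
open Pool.Agent.Q49.CO (trn)
open Pool.Agent.W574.SM (IsFunctionalEq)
open Pool.Agent.Y229 (IsLocalBI)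
open Pool.Agent.W428.MOT (MK Lu)
open Pool.Agent.TH192.MT (zetaJ)
open Pool.Agent.TH192.MU (IsTopZeta)

/-- The family `f_1, …, f_r`: `f_i` is the polynomial (*) with the data `A i`; `e` gives the names of the
variables of all the `f_i`, which are in separate variables. -/
noncomputable def family {r n : ℕ} (A : Fin r → Bundles) (e : (Σ i, (A i).Var) ≃ Fin n)
    (i : Fin r) : MvPolynomial (Fin n) ℂ := rename (fun x => e ⟨i, x⟩) (A i).poly

/-- `P` is a zero of the ideal `I = (f_1, …, f_r)` and `Z` is the local topological zeta function of `I`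
at `P` (`IsTopZeta E ε (zetaJ (f ∘ (P + ·))) Z`: for `s = 1, 2, …`, `Z(s)` is the value under `ε` of the
local motivic zeta function of `I` at `P` and `T = 𝕃 ^ (-s)`, after a realisation `E` with values in a
domain `R`, where `ε (E 𝕃) = 1` and `E 𝕃 ≠ 1`; for instance the Euler characteristic, from the
Hodge-Deligne polynomials). -/
def LocTop {R : Type} [CommRing R] (E : MK ℂ →+* R) (ε : R →+* ℂ) {r n : ℕ}
    (f : Fin r → MvPolynomial (Fin n) ℂ) (P : Fin n → ℂ) (Z : RatFunc ℂ) : Prop :=
  (∀ i, eval P (f i) = 0) ∧ IsTopZeta E ε (zetaJ fun i => trn P (f i)) Z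

/-- Q1 for the germs of `I = (f_1, …, f_r)`: if `Z` is the local topological zeta function of `I` at the
zero `P`, `s₀` is a pole of `Z`, and `b` satisfies a functional equation of Budur, Mustata and Saito for
the germ of `(f_i)` at `P` (`IsLocalBI`, operators with formal power series coefficients), or for `(f_i)`
(`IsFunctionalEq`, operators in the Weyl algebra), then `b(s₀) = 0`. -/
def StrongGerms {R : Type} [CommRing R] (E : MK ℂ →+* R) (ε : R →+* ℂ) {r n : ℕ}
    (f : Fin r → MvPolynomial (Fin n) ℂ) : Prop :=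
  ∀ (P : Fin n → ℂ) (Z : RatFunc ℂ), LocTop E ε f P Z → ∀ s₀ : ℂ, Z.denom.eval s₀ = 0 →
    ∀ b : Polynomial ℂ, (IsLocalBI (fun i => trn P (f i)) b ∨ IsFunctionalEq f b) → b.eval s₀ = 0

/-- If `Z_t` is the local topological zeta function of `I = (f_1, …, f_r)` at the zero `P_t`, for `t` in a
finite set, `s₀` is a pole of `c₀ + ∑_t χ_t Z_t` and `b` satisfies a functional equation of `(f_i)`, then
`b(s₀) = 0`. -/
def StrongSums {R : Type} [CommRing R] (E : MK ℂ →+* R) (ε : R →+* ℂ) {r n : ℕ}
    (f : Fin r → MvPolynomial (Fin n) ℂ) : Prop :=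
  ∀ (m : ℕ) (P : Fin m → Fin n → ℂ) (Z : Fin m → RatFunc ℂ), (∀ t, LocTop E ε f (P t) (Z t)) →
    ∀ (c₀ : ℂ) (χ : Fin m → ℂ) (s₀ : ℂ),
    (RatFunc.C c₀ + ∑ t, RatFunc.C (χ t) * Z t).denom.eval s₀ = 0 →
    ∀ b : Polynomial ℂ, IsFunctionalEq f b → b.eval s₀ = 0

/-- **Q1 for the germs of the ideals `(f_1, …, f_r)`, where the `f_i` are sums of quadric bundles over
lines in separate variables**, and for all the sums `c₀ + ∑_t χ_t Z_t` of their local zeta functions. -/
theorem result {r n : ℕ} (hr : 0 < r) (A : Fin r → Bundles) (hA : ∀ i, (A i).poly ≠ 0)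
    (e : (Σ i, (A i).Var) ≃ Fin n) {R : Type} [CommRing R] [IsDomain R] (E : MK ℂ →+* R)
    (ε : R →+* ℂ) (hε : ε (E ((Lu ℂ : (MK ℂ)ˣ) : MK ℂ)) = 1)
    (hE : E ((Lu ℂ : (MK ℂ)ˣ) : MK ℂ) ≠ 1) :
    StrongGerms E ε (family A e) ∧ StrongSums E ε (family A e) := by
  have h1 : StrongGerms E ε (family A e) := fun P Z hZ s₀ hs b hb =>
    Pool.Agent.H1.TB.loc_top E ε hε hE hr A hA e P hZ.1 Z hZ.2 s₀ hs b hb
  refine ⟨h1, fun m P Z hZ c₀ χ s₀ hs b hb => ?_⟩
  rcases Pool.Agent.H1.TB.denom_add _ _ s₀ hs with h2 | h2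
  · rw [RatFunc.denom_C, Polynomial.eval_one] at h2
    exact absurd h2 one_ne_zero
  · obtain ⟨t, -, h3⟩ := Pool.Agent.H1.TB.denom_sum _ _ s₀ h2
    exact h1 (P t) (Z t) (hZ t) s₀ (Pool.Agent.H1.TB.denom_const_mul _ _ s₀ h3) b
      (Or.inr hb)

end Pool.Agent.Results.MP_ee8c61_ag.QuadricBundleIdeals
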